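import Pool.Agent.N214.CP.Fin2

/-!
# Abundance for varieties with multi-valued maps to varieties of general type

Let `W` be *any* complex variety, of any dimension and any Kodaira dimension, and let
`W ⇢ X j`, `j < s`, be multi-valued dominant rational maps, or correspondences: for every `j` a
general point of `W` has `d j` different values in `X j` (`[L(E j) : L] = d j` for the function fields
`L` of `W` and `E j` of `X j`, contained in an extension `K` of `L` of finite degree). The fibres of
these maps are arbitrary, and the maps need not be related to each other.

Suppose that for every `j` the canonical forms of `X j` separate `2 d j` general points: for some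
nonempty open subset `U` of `X j` any `2 d j` different points of `U` impose independent conditions on
`H⁰(X j, K)`. For example `X j` is a smooth hypersurface of degree at least `dim X j + 1 + 2 d j`, or
`K - (2 d j - 1) H` is effective for a divisor `H` which defines a birational map to a projective
space, or a product of curves of gonality greater than `2 d j`.

**Theorem.** There is a fibration `W ⇢ B` over which all maps are defined up to finitely many values
(all functions on the `X j` are algebraic over the functions on `B`), so that the dimension `b` of
`B` is at least the dimension of the joint image of the maps, i.e. of the closure of the set of all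
`(x 0, ..., x (s-1))` in the product of the `X j`, where `x j` is a value of a point of `W`; and a
tensor power of the cotangent bundle of `B` contains a big line bundle: there is a tensor `T ≠ 0` and
there are `b` algebraically independent functions `c k` on `B` such that `T` and all `c k • T` are
regular at all prime divisors over `B`.

By the theorem of Campana and Păun (a smooth projective variety such that a tensor power of its
cotangent bundle contains a big line bundle has a big canonical bundle) `B` is of general type.
So, if `dim W ≤ b + 3`, for example if the joint image has dimension at least `dim W - 3`, then
abundance holds for `W`: let `M` be a projective manifold which is birational to `W` and such that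
`K_M` is nef. Then `M` is not uniruled, the general fibre `F` of `M ⇢ B` has dimension at most three
and is not uniruled, so it has a good minimal model (Miyaoka, Mori, Kawamata) and `κ(F) ≥ 0`. As `B`
is of general type, `κ(M) = κ(F) + b` and the general fibre of the Iitaka fibration of `M` is the
general fibre of the Iitaka fibration of `F` (Viehweg, Kollár), of dimension at most three. By the
theorem of Lai `M` has a good minimal model, so `K_M` is semiample and `κ(M) = ν(M)`. In general the
theorem reduces abundance for `W` to the fibres of `W ⇢ B`. If the joint image has the dimension of
`W` then `W` itself is of general type.

For `s = 1`, `d = 1` one can take for `B` the Stein factorization of `W ⇢ X`. If `W` is a subvariety of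
a symmetric power of `X`, for instance the symmetric power itself, then its points are cycles on `X`,
and the theorem applies to all `W` such that these cycles cover `X`. The number `2 d` is optimal: a
general covering `C → E` of degree `d` and of large genus of an elliptic curve has gonality `2 d`, the
canonical forms of `C` separate `2 d - 1` points, and `W = E` has a `d`-valued map to `C`.

Proof. Let `B` be defined by the functions on `W` which are algebraic over the field generated by all
conjugates of the functions on the `X j`. The number of the values does not change if `W` is replaced
by `B`. Let `f` be a canonical form on `X = X j`, `m = dim X`. The sum of its pull-backs by the `d`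
branches of `B ⇢ X` is a rational `m`-form `τ f` on `B`, the trace. It is regular at all prime
divisors `P`, also where the branches ramify, with index `e`: at most one of the vector fields in the
arguments is not logarithmic at `P`, and its lift has a pole of order at most `e - 1`. The forms `τ f`
span a vector space `V` over `ℂ(B)`, of dimension `e` (`m`-forms on the variety `B` of dimension
`b ≥ m`). The determinants of `e` forms `τ f` on `e` tuples of vector fields are tensors which are
regular at all prime divisors and proportional to each other. Let `R` be the field of the ratios. Let
`P`, `Q` be a generic pair of points of `B` with the same image in the variety with function field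
`R`. Suppose that some value `x` of `P` is not a value of `Q`. As the canonical forms separate the at
most `2 d` values of `P` and `Q`, some linear combination `ω` of them (with coefficients which depend
on `P` and `Q`) vanishes at all values except for `x`. So `τ ω` vanishes at `Q` and not at `P`; but
the coefficients of the `τ f` in a basis of `V` are in `R`, hence equal at `P` and `Q`, and a linear
combination which vanishes at `Q` vanishes at `P`. Contradiction. So the values of `P` are values of
`Q`, which implies that the functions on `X` are algebraic over `R`. The product of the tensors for
all `j` is the tensor `T`, and the functions on `B` are algebraic over the field of all ratios.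

The parts of the Lean proof on linear algebra, on the comparison of two points, on the field of
definition and on the multilinearity are due to helpers 826, 218, 966 and 767; the separation of
points by traces is the method of the team's theorem `ProductWithCurveKlt` (helpers 145, 123), whose
lemma on the pull-back of canonical forms (helper 123) is used.
-/

set_option autoImplicit false
set_option linter.overlappingInstances false

open FF Module Pool.Agent Pool.Agent.W602.GT

namespace Pool.Agent.Results.MP_c2a5fc_ag.MultivaluedMaps

/-- **The canonical forms separate `r` general points.** `E` is the function field of a variety `X` of
dimension `m`, and `D` a rational frame of the tangent bundle. The embeddings `σ : E → Ω` are the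
generic points of `X` with coordinates in the field `Ω`. At most `r` different such points impose
independent conditions on the canonical forms `ω` which are regular at all prime divisors: if
`∑ c σ * σ (ω D) = 0` for all `ω` then all the coefficients `c σ` are zero. -/
def SeparatesPoints (E : Type) [Field E] [Algebra ℂ E] (m r : ℕ) : Prop :=
  ∀ D : Fin m → Derivation ℂ E E, LinearIndependent E D →
    ∀ (Ω : Type) [Field Ω] [Algebra ℂ Ω] [IsAlgClosed Ω] (A : Finset (E →ₐ[ℂ] Ω)), A.card ≤ r →
    ∀ c : (E →ₐ[ℂ] Ω) → Ω,
    (∀ ω : (Fin m → Derivation ℂ E E) → E, IsPluri 1 ω →
      (∀ P : Place ℂ E, Divisorial m P → RegAt P ω) → ∑ σ ∈ A, c σ * σ (ω D) = 0) →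
    ∀ σ ∈ A, c σ = 0

/-- **A tensor power of the cotangent bundle contains a big line bundle.** `N` is the function field of
a variety `B` of dimension `b`. There is a tensor `T ≠ 0` (an `N`-multilinear function of `r` rational
vector fields) and there are `b` algebraically independent functions `c k` such that `T` and the
`c k • T` are regular at all prime divisors `P` over `B`: their values on vector fields which are
regular at `P` are regular at `P`. -/
def HasBigTensors (N : Type) [Field N] [Algebra ℂ N] (b : ℕ) : Prop :=
  ∃ (r : ℕ) (T : MultilinearMap N (fun _ : Fin r => Derivation ℂ N N) N) (c : Fin b → N),
    T ≠ 0 ∧ AlgebraicIndependent ℂ c ∧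
    ∀ P : Place ℂ N, Divisorial b P → ∀ D : Fin r → Derivation ℂ N N, (∀ i, DerReg P (D i)) →
      P.Reg (T D) ∧ ∀ k, P.Reg (c k * T D)

/-- **Multi-valued maps to varieties whose canonical forms separate points.** `L` is the function
field of the variety `W`, `K` a finite extension, and `E j` the function field of the variety `X j`
of dimension `m j`, embedded in `K`; `d j = [L(E j) : L]` is the number of values of a general point of
`W` in `X j`. If the canonical forms of `X j` separate `2 d j` general points for all `j` then there is
a fibration `W ⇢ B`, `b = dim B` (the function field `N` of `B` is a subfield of `L`, algebraically
closed in `L`), such that the functions on the `X j` are algebraic over the functions on `B`, `b` is at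
least the dimension of the joint image, and a tensor power of the cotangent bundle of `B` contains a
big line bundle. -/
theorem result (L K : Type) [Field L] [Field K] [Algebra ℂ L] [Algebra ℂ K] [Algebra L K]
    [IsScalarTower ℂ L K] [FiniteDimensional L K] [Algebra.EssFiniteType ℂ L]
    -- the varieties `X j`
    {s : ℕ} (E : Fin s → Type) [∀ j, Field (E j)] [∀ j, Algebra ℂ (E j)]
    [∀ j, Algebra.EssFiniteType ℂ (E j)] (m : Fin s → ℕ)
    (hE : ∀ j, Algebra.trdeg ℂ (E j) = m j)
    -- the multi-valued maps
    [∀ j, Algebra (E j) K] [∀ j, IsScalarTower ℂ (E j) K]
    (hX : ∀ j, SeparatesPoints (E j) (m j)
      (2 * finrank L (IntermediateField.adjoin L (Set.range (algebraMap (E j) K))))) :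
    ∃ (N : IntermediateField ℂ L) (b : ℕ), Algebra.trdeg ℂ N = b ∧
      (∀ z : L, IsAlgebraic N z → z ∈ N) ∧
      (∀ j, ∀ z : E j, IsAlgebraic N (algebraMap (E j) K z)) ∧
      Algebra.trdeg ℂ (IntermediateField.adjoin ℂ (⋃ j, Set.range (algebraMap (E j) K))) ≤ b ∧
      HasBigTensors N b := by
  choose x D hx hD using fun j => Pool.Agent.Y172.exists_crd (hE j)
  obtain ⟨N, b, hb, hcl, halg, hdim, r, T, c, hT0, hT, hTc, hc⟩ := N214.CP.main2 (L := L) E hE hx
    (g := fun j =>
      2 * finrank L (IntermediateField.adjoin L (Set.range (algebraMap (E j) K))) + 1)
    (fun j => N214.CP.sep_of (hx j) (hD j) fun Ω _ _ _ A hA c hc =>
      hX j (D j) (N214.CP.dual_indep (hD j)) Ω A hA c hc)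
    fun j => Nat.lt_succ_self _
  exact ⟨N, b, hb, hcl, halg, hdim, r, T, c, hT0, hc, fun P hP D' hD' =>
    ⟨hT P hP D' hD', fun k => hTc k P hP D' hD'⟩⟩

end Pool.Agent.Results.MP_c2a5fc_ag.MultivaluedMaps
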