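import Pool.Agent.N145.SX.MFin

/-!
# Kodaira dimension and numerical dimension of varieties dominated by a product of several varieties and a curve

Let `V = X 0 × ... × X (k - 1) × C`, where the `X i` are smooth projective varieties over `ℂ` of
dimension `m i` and `C` is a smooth projective curve of any genus. Let `V ⇢ W` be a dominant rational
map of finite degree to a variety `W`. It need not be related to the product structure, and it need not
be the quotient by a group. Let `W_i` be the image of `V` in `W × X 0 × ... × X (i - 1)`, and let
`d i` be the degree over `W_i` of the image of `V` in `W_i × X i`; for example `W_0 = W`, and `d 0` is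
the number of different points of `X 0` below a general fibre of `V ⇢ W`. The product of the `d i`
is at most the degree of `V ⇢ W`.

Suppose that for all `i` the canonical forms of `X i` separate `2 d i` general points: for some nonempty
open subset `U` of `X i` any `2 d i` different points of `U` impose independent conditions on
`H⁰(X i, K)`. For example, `X i` is a smooth hypersurface of degree at least `m i + 1 + 2 d i` in
projective space, or a curve of gonality greater than `2 d i`, or more generally `K - (2 d i - 1) H` is
effective for a divisor `H` which defines a birational map to a projective space. Then: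

* `κ(W) = -∞` if and only if `K_W` is not pseudo-effective, if and only if `W` is uniruled;
* `κ(W) = dim W - 1` if and only if `W` is not uniruled, but covered by elliptic curves;
* `κ(W) = dim W` if and only if the canonical map of `W`, given by `H⁰(K_W)`, is generically finite,
  if and only if `W` is not covered by rational or elliptic curves.

So `κ(W)` is `-∞`, `dim W - 1` or `dim W`, and it is determined by the curves of genus at most one
which cover `W`. If `K_M` is nef for a projective manifold `M` which is birational to `W` then
`κ(M) ≥ dim M - 1`, and hence `κ(M) = ν(M)`: if `ν(M) = dim M` then `K_M` is big (this remark is not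
part of the Lean proof). So the case `ν(M) = dim M - 1` occurs exactly if `M` is covered by elliptic
curves, and the cases `ν(M) < dim M - 1` do not occur.

There is no condition on the irregularity: in the first example `q(X i) = 0` if `m i > 1`, and
`q(W) = 0` is possible, so the Albanese map of `W` may be constant, and the known theorems on
abundance for varieties of large Albanese dimension do not apply. Some condition on the points is
necessary: a Kummer surface `W = (X × C) / {± 1}` with elliptic curves `X` and `C` (so `d = 2`, and one
point is separated) has `κ(W) = 0`, and a bielliptic surface `W` with `X`, `C` elliptic, `d = 2`, has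
`κ(W) = 0` and `p_g(W) = 0`.

Proof. Let `f i` be canonical forms on the `X i` and `φ` a differential on `C`. The product of their
pullbacks is a regular canonical form on `V`: for vector fields which are regular along a prime
divisor `Q` over `V` the determinant of the coordinates is expanded in blocks by Gauss elimination
with a minor of minimal order along `Q`. The trace of the product is a canonical form on `W`. Suppose
that two generic points `P`, `Q` of `W` have the same image under the map given by these forms. This
is a relation between the points of `V` below `P` and `Q` which is multilinear in the values of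
the `f i`. At most `2 d i` points of `X i` occur if the first `i` coordinates are fixed, and they are
separated, so we can fix the coordinates one after the other. We come to the points with the same
coordinates in all `X i` as a given point over `P`. If there are no such points over `Q` then the
differentials `φ` have trace zero on the image of `{x} × C` in `W × X 0 × ... × X (k - 1)`, this
image is a rational curve, and `W` is uniruled. Otherwise the coordinates in the `X i` are algebraic
over the field of the ratios of the traces, and the image of the canonical map has dimension at least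
`dim W - 1`. If the image of the canonical map is not `W` then the traces of the `φ` on these curves
are multiples of one of them, so the curves are rational or elliptic (by duality) and their images
cover `W`; then `W` is not of general type. Uniruled varieties have no pseudo-effective canonical
divisor.

The parts of the Lean proof on pull-backs, products, the geometric generic fibre, the
correspondences on rational curves and the traces on the fibres are due to helpers 123, 221, 442, 160,
279, 603, 545, 281, 438, 277, 999, 297, 273 and 459.
-/

set_option autoImplicit false
set_option linter.overlappingInstances false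
set_option maxHeartbeats 4000000
set_option synthInstance.maxHeartbeats 400000

open FF Module IntermediateField Pool.Agent Pool.Agent.W602.GT
open Pool.Agent.W619.PQ (IsUniruled)

namespace Pool.Agent.Results.MP_c2a5fc_ag.ProductsAndEllipticCurves

/-- **The canonical forms separate `r` general points.** `E` is the function field of a variety `X` of
dimension `m`, and `D` a rational frame of the tangent bundle. The embeddings `σ : E → Ω` are the
generic points of `X` with coordinates in the field `Ω`. At most `r` different such points impose
independent conditions on the canonical forms `ω` which are regular at all prime divisors: if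
`∑ c σ * σ (ω D) = 0` for all `ω` then all the coefficients `c σ` are zero. -/
def SeparatesPoints (E : Type) [Field E] [Algebra ℂ E] (m r : ℕ) : Prop :=
  ∀ D : Fin m → Derivation ℂ E E, LinearIndependent E D →
    ∀ (Ω : Type) [Field Ω] [Algebra ℂ Ω] [IsAlgClosed Ω] (A : Finset (E →ₐ[ℂ] Ω)), A.card ≤ r →
    ∀ c : (E →ₐ[ℂ] Ω) → Ω,
    (∀ ω : (Fin m → Derivation ℂ E E) → E, IsPluri 1 ω →
      (∀ P : Place ℂ E, Divisorial m P → RegAt P ω) → ∑ σ ∈ A, c σ * σ (ω D) = 0) →
    ∀ σ ∈ A, c σ = 0

variable {K : Type} [Field K] [Algebra ℂ K] {k : ℕ}

/-- The function field of the image `W_i` of `V` in the product of `W` and the first `i` factors.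
Here `K` and `L` are the function fields of `V` and `W`, and `F l` is the one of the `l`-th
factor. -/
noncomputable def Img (F : Fin (k + 1) → IntermediateField ℂ K) (L : Type) [Field L] [Algebra L K]
    (i : ℕ) : IntermediateField L K :=
  IntermediateField.adjoin L {z | ∃ l : Fin (k + 1), l.val < i ∧ z ∈ F l}

/-- The degree over `W_i` of the image of `V` in the product of `W_i` and the `i`-th factor. -/
noncomputable def deg (F : Fin (k + 1) → IntermediateField ℂ K) (L : Type) [Field L] [Algebra L K]
    (i : Fin (k + 1)) : ℕ :=
  finrank (Img F L i) (IntermediateField.adjoin (Img F L i) (F i : Set K))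

theorem deg_eq (F : Fin (k + 1) → IntermediateField ℂ K) (L : Type) [Field L] [Algebra ℂ L]
    [Algebra L K] [IsScalarTower ℂ L K] [FiniteDimensional L K] (i : Fin (k + 1)) :
    deg F L i = finrank (N145.PC.MF F L (N145.PC.Js (k + 1) i))
      (IntermediateField.adjoin (N145.PC.MF F L (N145.PC.Js (k + 1) i)) (F i : Set K)) := by
  unfold deg Img
  rw [N145.SX.mf_eq]

/-- The canonical map of the varieties with function field `L`, of dimension `w`, is generically
finite: there are canonical forms, regular at all prime divisors, whose ratios contain `w`
algebraically independent functions. (For pluricanonical forms this is `GeneralType`.) -/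
def CanonicalMapGenericallyFinite (L : Type) [Field L] [Algebra ℂ L] (w : ℕ) : Prop :=
  ∃ ω : Fin (w + 1) → (Fin w → Derivation ℂ L L) → L,
    (∀ j, IsPluri 1 (ω j) ∧ ∀ P : Place ℂ L, Divisorial w P → RegAt P (ω j)) ∧
    ∃ D, ω 0 D ≠ 0 ∧ AlgebraicIndependent ℂ (fun i : Fin w => ω i.succ D / ω 0 D)

/-- The curve with the function field `F` over the algebraically closed field `Λ` is rational, i.e.
`F = Λ(t)`, or elliptic, i.e. it has a vector field `D` without zeros and poles: `D t` is a unit
for the uniformizers `t` at all points `w`. -/
def IsRationalOrElliptic (Λ F : Type) [Field Λ] [Field F] [Algebra Λ F] : Prop :=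
  (∃ t : F, Λ⟮t⟯ = ⊤) ∨ ∃ D : Derivation Λ F F, ∀ (w : Place Λ F) (t : F), w.ord t = 1 →
    D t ≠ 0 ∧ w.ord (D t) = 0

/-- The variety with the function field `L`, of dimension `n + 1`, is covered by an `n`-dimensional
family of rational or elliptic curves: there are an algebraically closed field `Λ` of transcendence
degree `n` (the algebraic closure of the function field of the base of the family) and a curve over
`Λ` with function field `F` (the geometric generic curve of the family), which is rational or
elliptic, and an embedding of `L` into `F` (the dominant map from the total space to `W`). -/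
def IsCoveredByRationalOrElliptic (L : Type) [Field L] [Algebra ℂ L] (n : ℕ) : Prop :=
  ∃ (Λ F : Type) (_ : Field Λ) (_ : Field F) (_ : Algebra ℂ Λ) (_ : Algebra ℂ F)
    (_ : Algebra Λ F) (_ : IsScalarTower ℂ Λ F) (_ : IsAlgClosed Λ) (_ : IsFF Λ F),
    Algebra.trdeg ℂ Λ = n ∧ IsRationalOrElliptic Λ F ∧ Nonempty (L →ₐ[ℂ] F)

theorem glo_iff {Λ F : Type} [Field Λ] [Field F] [Algebra Λ F] [CharZero Λ] [IsAlgClosed Λ]
    [IsFF Λ F] : N145.SX.GLO Λ F ↔ IsRationalOrElliptic Λ F := by
  unfold IsRationalOrElliptic
  simp only [N145.SX.flat_iff]
  exact ⟨N145.SX.flat_of_glo, N145.SX.glo_of_flat⟩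

theorem cover_iff (L : Type) [Field L] [Algebra ℂ L] (n : ℕ) :
    N145.SX.Cov1 L n ↔ IsCoveredByRationalOrElliptic L n := by
  constructor
  · rintro ⟨Λ, F, i1, i2, i3, i4, i5, i6, i7, i8, h1, h2, h3⟩
    have hch : CharZero Λ := charZero_of_injective_algebraMap (algebraMap ℂ Λ).injective
    exact ⟨Λ, F, i1, i2, i3, i4, i5, i6, i7, i8, h1, glo_iff.1 h2, h3⟩
  · rintro ⟨Λ, F, i1, i2, i3, i4, i5, i6, i7, i8, h1, h2, h3⟩
    have hch : CharZero Λ := charZero_of_injective_algebraMap (algebraMap ℂ Λ).injective
    exact ⟨Λ, F, i1, i2, i3, i4, i5, i6, i7, i8, h1, glo_iff.2 h2, h3⟩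

/-- **The Kodaira dimension of varieties dominated by the product of several varieties and a curve.**
Let `K` be the function field of the product `V` of the varieties with the function fields `F i`,
`i < k`, of dimension `m i`, and of the curve with the function field `F k`, i.e. `K` is the compositum
and its transcendence degree is `∑ m i + 1`. Let `L ⊆ K` be the function field of a variety `W` such
that the extension is finite. Suppose that for all `i < k` the canonical forms of the `i`-th variety
separate `2 d i` general points, where `d i` is the degree over `W_i` of the image of `V` in the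
product of `W_i` and this variety. Then:
* `K_W` is not pseudo-effective if and only if `κ(W) = -∞`, if and only if `W` is uniruled;
* `κ(W) = ∑ m i = dim W - 1` if and only if `W` is not uniruled, but covered by rational or elliptic
  curves;
* `W` is of general type if and only if the canonical map of `W` is generically finite, if and only
  if `W` is not covered by rational or elliptic curves. -/
theorem result [Algebra.EssFiniteType ℂ K] (m : Fin k → ℕ)
    (F : Fin (k + 1) → IntermediateField ℂ K) [∀ i, Algebra.EssFiniteType ℂ (F i)]
    [IsFF ℂ (F (Fin.last k))] (hF : ⨆ i, F i = ⊤)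
    (hm : ∀ i : Fin k, Algebra.trdeg ℂ (F i.castSucc) = m i)
    (hK : Algebra.trdeg ℂ K = (∑ i, m i + 1 : ℕ)) (L : Type) [Field L] [Algebra ℂ L]
    [Algebra L K] [IsScalarTower ℂ L K] [FiniteDimensional L K]
    (hX : ∀ i : Fin k, SeparatesPoints (F i.castSucc) (m i) (2 * deg F L i.castSucc)) :
    [¬ Psef ℂ L (∑ i, m i + 1) (fun _ => False), ¬ KodGe ℂ L (∑ i, m i + 1) (fun _ => False) 0,
      IsUniruled ℂ L (∑ i, m i + 1)].TFAE ∧
    ((KodGe ℂ L (∑ i, m i + 1) (fun _ => False) (∑ i, m i) ∧
      ¬ KodGe ℂ L (∑ i, m i + 1) (fun _ => False) (∑ i, m i + 1)) ↔
      (¬ IsUniruled ℂ L (∑ i, m i + 1) ∧ IsCoveredByRationalOrElliptic L (∑ i, m i))) ∧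
    [GeneralType ℂ L (∑ i, m i + 1), CanonicalMapGenericallyFinite L (∑ i, m i + 1),
      ¬ IsCoveredByRationalOrElliptic L (∑ i, m i)].TFAE := by
  have hL : Algebra.trdeg ℂ L = (∑ i, m i + 1 : ℕ) := Pool.Agent.Y184.NT.trdeg_below (K := K) hK
  choose x D hx hD using fun i : Fin k => Pool.Agent.Y172.exists_crd (hm i)
  obtain ⟨h1, h2, h3⟩ := N145.SX.multi_all (L := L) hF hm hK hx
    (g := fun i => 2 * deg F L i.castSucc + 1)
    (fun i => N145.SX.sepX_of' (hx i) (hD i) fun Ω _ _ _ A hA c hc =>
      hX i (D i) (N145.SX.dual_indep (hD i)) Ω A hA c hc)
    (fun i => by
      rw [deg_eq]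
      exact Nat.lt_succ_self _)
  rw [cover_iff] at h2
  have a1 : Psef ℂ L (∑ i, m i + 1) (fun _ => False) ↔ ¬ IsUniruled ℂ L (∑ i, m i + 1) :=
    h1.out 0 2
  have a2 : KodGe ℂ L (∑ i, m i + 1) (fun _ => False) (∑ i, m i) ↔
      ¬ IsUniruled ℂ L (∑ i, m i + 1) := h1.out 1 2
  have a3 : KodGe ℂ L (∑ i, m i + 1) (fun _ => False) (∑ i, m i + 1) ↔
      ¬ IsCoveredByRationalOrElliptic L (∑ i, m i) := h2.out 0 2
  refine ⟨?_, ?_, ?_⟩
  · tfae_have 1 ↔ 3 := by
      rw [a1, not_not]
    tfae_have 2 → 1 := fun h h' =>
      h ((h3 0).2 (N145.SX.canGe_mono (Nat.zero_le _) ((h3 _).1 (a2.2 (a1.1 h')))))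
    tfae_have 1 → 2 := fun h h' => h (N145.PL.psef_of_kodGe' h')
    tfae_finish
  · rw [a2, a3, not_not]
  · rwa [N145.SX.kodGe_iff hL] at h2

end Pool.Agent.Results.MP_c2a5fc_ag.ProductsAndEllipticCurves
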