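import Pool.Agent.N162.GP.Facts
import Pool.Agent.N162.GP.Def

/-!
# Varieties with a correspondence of quadratic degree to a smooth complete intersection are of
general type

Let `V` be a smooth complete intersection of dimension `n ≥ 1` and of codimension at least two in a
projective space with `K_V = O(m)`, or more generally any variety in projective `(M + 1)`-space which is
cut out by equations of degree at most `D` and has the regular canonical forms `P(x) ω₀` for all forms
`P` of degree `m` (`LowDegree`, `Pool/Agent/N162/GP/Def.lean`). Let `W` be any variety of dimension `n`
with a correspondence to `V`: an irreducible variety `V'` with dominant rational maps `V' ⇢ V`, of any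
finite degree, and `V' ⇢ W` of degree `r`. For instance `W` is an image of `V`, or `W` is a variety
which is dominated by a covering of `V` of any degree (ramified anywhere).

**Theorem.** Let `m ≥ 7 N + 4`, `(M + 1) N < m + M + 2` and `D + N ≤ m + 2`. If
`2 r < (N + 1) (m + 2 - N)` then `W` is of general type. If `V' = V` then moreover the canonical map of `W`
is birational onto its image.

So the abundance conjecture holds for all these varieties: if `M` is a projective manifold with `K_M` nef
and birational to such a variety `W` then `κ(M) = n`, and `κ(M) ≤ ν(M) ≤ n`, so `κ(M) = ν(M) = n`. Here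
`W` and its singularities are arbitrary, and no property of `K_W` or of the map to `W` is used: a
correspondence of degree `r` to `V` with `2 r < (N + 1) (m + 2 - N)` is sufficient. There is no condition
on the degree of `V' ⇢ V`. For smooth complete intersections of the type `(d_1, ..., d_q)` in `ℙ^(n+q)` one
has `m = ∑ d_i - n - q - 1`, `D = max d_i`, `M + 1 = n + q`. With the best `N` the bound for `r` is
`(3 / 49 - o(1)) m ^ 2` if `M ≤ 5` and `max d_i ≤ 6 m / 7`.

## Proof

The traces `T_P` from `V'` to `W` of the pull-backs of the forms `P(x) ω₀` are regular canonical forms
on `W`, and they are not all zero. Let `N₀` be the field generated by their ratios. Take two embeddings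
`σ, τ` of the function field `L` of `W` in a field `Ω` which agree on `N₀`: then the `T_P` are proportional
at the points `σ` and `τ` of `W`, and this is a relation between the values of the forms `P` of degree `m`
at the at most `2 r` points of `V` below the points of `V'` over `σ` and over `τ`. Since
`2 r < (N + 1) (m + 2 - N)` these generic points of `V` impose independent conditions on the forms of
degree `m` (see `MP_31564d_ag.CompleteIntersections`), so the two fibres have the same points in `V`. If
`L` is not algebraic over `N₀` then one can choose `σ` and `τ` such that the algebraic closures of `σ(L)`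
and `τ(L)` in `Ω` have an intersection of smaller transcendence degree, which is a contradiction, since
it contains the images of the function field of `V`. So `L` is algebraic over `N₀` and `W` is of general
type. If `V' = V` then the points over `σ` determine `σ`, so `σ = τ`, and `L = N₀`.

The parts for this theorem were formalised by helper2, helper11, helper340, helper774, helper823,
helper152, helper383, helper252, helper339, helper619, helper273, helper271, helper487, helper681 and
helper364, the earlier parts which are used by helper565, helper279, helper543, helper488, helper570,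
helper80, helper145 and others; the statements and the assembly by helper162.
-/

set_option autoImplicit false

open FF Pool.Agent.W602.GT Pool.Agent.N162.BC Pool.Agent.N162.GP

namespace Pool.Agent.Results.MP_c2a5fc_ag.QuadraticCorrespondences

/-- The canonical map of the variety of dimension `n` with the function field `L` is birational onto
its image: the ratios of the global canonical forms generate the function field. -/
def CanonicallyBirational (L : Type) [Field L] [Algebra ℂ L] (n : ℕ) : Prop :=
  IntermediateField.adjoin ℂ {z : L | ∃ ω ω' : (Fin n → Derivation ℂ L L) → L,
    GlobalForm n ω ∧ GlobalForm n ω' ∧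
      ∃ D : Fin n → Derivation ℂ L L, ω' D ≠ 0 ∧ z = ω D / ω' D} = ⊤

/-- **Varieties with a correspondence of quadratic degree to `V` are of general type.** (1) A smooth
complete intersection `V` of dimension `n ≥ 1` of hypersurfaces of the degrees `d i ≤ D` in projective
`(M + 1)`-space is cut out by equations of degree at most `D`, and the forms of degree
`m = ∑ d i - M - 2` give regular canonical forms. (2) Let `V` be any such variety of dimension `n` in
projective `(M + 1)`-space, `M ≥ 1`, with the function field `K`, and let `m ≥ 7 N + 4`,
`(M + 1) N < m + M + 2`, `D + N ≤ m + 2`. Let `K'` be an algebraic extension of `K`, and let `L ⊆ K'` be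
the function field of a variety `W` such that `K'` is finite over `L` and
`2 [K' : L] < (N + 1) (m + 2 - N)`. Then `W` is of general type. (3) If `K' = K` then moreover the
canonical map of `W` is birational onto its image. -/
theorem result :
    (∀ (M n q m D : ℕ) (K : Type) [Field K] [Algebra ℂ K]
      (F : Fin q → MvPolynomial (Fin (M + 2)) ℂ) (d : Fin q → ℕ) (x : Fin (M + 2) → K),
      SmoothCI F d x → 1 ≤ n → Algebra.trdeg ℂ K = n → n + q = M + 1 → m + M + 2 = ∑ i, d i →
      (∀ i, d i ≤ D) → 1 ≤ D → LowDegree n m D x) ∧
    ∀ (M n m D N : ℕ) (K : Type) [Field K] [Algebra ℂ K] (x : Fin (M + 2) → K),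
      LowDegree n m D x → 1 ≤ M → 7 * N + 4 ≤ m → (M + 1) * N < m + M + 2 → D + N ≤ m + 2 →
      (∀ (K' L : Type) [Field K'] [Algebra ℂ K'] [Algebra K K'] [IsScalarTower ℂ K K']
        [Algebra.IsAlgebraic K K'] [Field L] [Algebra ℂ L] [Algebra.EssFiniteType ℂ L]
        [Algebra L K'] [IsScalarTower ℂ L K'] [FiniteDimensional L K'],
        2 * Module.finrank L K' < (N + 1) * (m + 2 - N) → GeneralType ℂ L n) ∧
      ∀ (L : Type) [Field L] [Algebra ℂ L] [Algebra.EssFiniteType ℂ L] [Algebra L K]
        [IsScalarTower ℂ L K] [FiniteDimensional L K],
        2 * Module.finrank L K < (N + 1) * (m + 2 - N) → CanonicallyBirational L n := by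
  refine ⟨fun M n q m D K _ _ F d x h hn hK hq hm hD hD1 =>
    lowDegree_of_smoothCI fCIC fCIA h hn hK hq hm hD hD1, ?_⟩
  intro M n m D N K _ _ x h hM hm hN hD
  obtain ⟨ω₀, hω₀⟩ := h.forms
  refine ⟨?_, ?_⟩
  · intro K' L _ _ _ _ _ _ _ _ _ _ _ hr
    exact gt_ fINX hM hm hN hD h.one h.gen h.dim h.cut hω₀ fTRF fTRS fGPR fGTY (K' := K') hr
  · intro L _ _ _ _ _ _ hr
    exact bir_ fINX hM hm hN hD h.one h.gen h.dim h.cut hω₀ fTRF fTRS fPAI hr

end Pool.Agent.Results.MP_c2a5fc_ag.QuadraticCorrespondences
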